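import Pool.Agent.AE95.Close
import Pool.Agent.AE32.Arb

/-!
# Binary out-arborescences: cherries, and oriented trees
-/

namespace AE95

open Finset AE32 Relation

open Classical in
/-- the number of nodes having two children which are both leaves -/
noncomputable def ch : BT → ℕ
  | .nil => 0
  | .node l r => if l = lf ∧ r = lf then 1 else ch l + ch r

open Classical in
/-- one leaf of every cherry is replaced by a path with two vertices -/
noncomputable def fx : BT → BT
  | .nil => .nil
  | .node l r => if l = lf ∧ r = lf then .node (.node lf .nil) lf else .node (fx l) (fx r)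

theorem fx_size (T : BT) : (fx T).size = T.size + ch T := by
  classical
  induction T with
  | nil => rfl
  | node l r ihl ihr =>
    rw [fx, ch]
    split_ifs with h
    · obtain ⟨rfl, rfl⟩ := h
      rfl
    · simp only [BT.size, ihl, ihr]
      omega

theorem fx_nil {T : BT} (h : fx T = .nil) : T = .nil := by
  classical
  cases T with
  | nil => rfl
  | node l r =>
    rw [fx] at h
    split_ifs at h

theorem fx_lf {T : BT} (h : fx T = lf) : T = lf := by
  classical
  cases T with
  | nil =>
    rw [fx] at h
    exact absurd h (by simp)
  | node l r =>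
    rw [fx] at h
    split_ifs at h with h1
    · simp at h
    · simp only [BT.node.injEq] at h
      rw [fx_nil h.1, fx_nil h.2]

theorem fx_cf (T : BT) : CF (fx T) := by
  classical
  induction T with
  | nil => trivial
  | node l r ihl ihr =>
    rw [fx]
    split_ifs with h
    · simp [CF]
    · exact ⟨ihl, ihr, fun h1 => h ⟨fx_lf h1.1, fx_lf h1.2⟩⟩

theorem fx_ne {T : BT} (h : T ≠ .nil) : fx T ≠ .nil := fun h1 => h (fx_nil h1)

theorem fx_emb {V : Type*} [DecidableEq V] {R : V → V → Prop} (T : BT) : ∀ (N : V → Prop) (S : Finset V),
    Emb R (fx T) N S → ∃ S' ⊆ S, Emb R T N S' := by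
  classical
  induction T with
  | nil => exact fun N S h => ⟨S, Subset.refl _, h⟩
  | node l r ihl ihr =>
    intro N S h
    rw [fx] at h
    split_ifs at h with h1
    · obtain ⟨rfl, rfl⟩ := h1
      obtain ⟨x, A, B, h2, h3, h4, h5, h6, h7, h8⟩ := h
      obtain ⟨y, C, D, g2, g3, g4, g5, g6, g7, g8⟩ := h7
      have hy : y ∈ A := by rw [g6]; simp
      refine ⟨insert x ({y} ∪ B), ?_, x, {y}, B, h2, ?_, h4, ?_, rfl, ?_, h8⟩
      · rw [h6]
        intro a
        simp only [mem_insert, mem_union, mem_singleton]
        rintro (h | rfl | h)
        · exact Or.inl h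
        · exact Or.inr (Or.inl hy)
        · exact Or.inr (Or.inr h)
      · simp only [mem_singleton]
        rintro rfl
        exact h3 hy
      · exact disjoint_of_subset_left (by simpa using hy) h5
      · exact ⟨y, ∅, ∅, g2, by simp, by simp, by simp, by simp, rfl, rfl⟩
    · obtain ⟨x, A, B, h2, h3, h4, h5, h6, h7, h8⟩ := h
      obtain ⟨A', hA, h9⟩ := ihl _ _ h7
      obtain ⟨B', hB, h10⟩ := ihr _ _ h8
      refine ⟨insert x (A' ∪ B'), ?_, x, A', B', h2, fun h => h3 (hA h), fun h => h4 (hB h),
        disjoint_of_subset_left hA (disjoint_of_subset_right hB h5), rfl, h9, h10⟩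
      rw [h6]
      exact insert_subset_insert _ (union_subset_union hA hB)

/-- every binary tree embeds into every tournament with as many vertices as the tree has nodes and cherries -/
theorem embed_ch {V : Type*} [DecidableEq V] {R : V → V → Prop} (hT : Tour R) {T : BT} (hne : T ≠ .nil)
    {U : Finset V} (hU : T.size + ch T ≤ U.card) : ∃ S, Emb R T (fun _ => True) S := by
  obtain ⟨S, hS, hc⟩ := exists_subset_card_eq (s := U) (n := (fx T).size) (by rw [fx_size]; exact hU)
  obtain ⟨x, X, h1, h2⟩ := span hT (fx T) (fx_cf T) (fx_ne hne) S hc
  obtain ⟨S', -, h3⟩ := fx_emb T (fun _ => True) _ (h2.2.emb trivial)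
  exact ⟨S', h3⟩

/-- the vertices with exactly two children, both of them leaves -/
def Cher {τ : Type*} (E : τ → τ → Prop) (v : τ) : Prop :=
  ∃ c d, c ≠ d ∧ (∀ e, E v e ↔ e = c ∨ e = d) ∧ (∀ x, ¬ E c x) ∧ (∀ x, ¬ E d x)

/-- A binary tree describing the subtree of the oriented tree `E` below `v`. -/
theorem exists_bt {τ : Type*} [Fintype τ] [DecidableEq τ] {E : τ → τ → Prop} {h : τ → ℕ}
    (hE : ∀ a b, E a b → h a < h b) (hin : ∀ a b c, E a c → E b c → a = b) (hout : ∀ v, {w | E v w}.ncard ≤ 2)
    {V : Type*} [DecidableEq V] {R : V → V → Prop} {P : Finset τ} (hP : ∀ v, Cher E v → v ∈ P) (n : ℕ) :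
    ∀ v, (desc E v).card = n → ∃ T : BT, T ≠ .nil ∧ T.size = (desc E v).card ∧
      ((T = lf → ∀ x, ¬ E v x) ∧ ch T ≤ (P ∩ desc E v).card) ∧
      ∀ (x : V) (S : Finset V), Rt R T x S → ∃ f : τ → V, f v = x ∧ (∀ a ∈ desc E v, f a ∈ S) ∧
        (∀ a ∈ desc E v, ∀ b ∈ desc E v, f a = f b → a = b) ∧
        ∀ a ∈ desc E v, ∀ b ∈ desc E v, E a b → R (f a) (f b) := by
  classical
  induction n using Nat.strong_induction_on with
  | _ n ih =>
    intro v hv
    have hfin : {w | E v w}.Finite := Set.toFinite _
    have hmem : ∀ x, x ∈ desc E v ↔ x = v ∨ ∃ c, E v c ∧ x ∈ desc E c := by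
      intro x
      rw [mem_desc, ReflTransGen.cases_head_iff]
      constructor
      · rintro (h1 | ⟨c, h1, h2⟩)
        · exact Or.inl h1.symm
        · exact Or.inr ⟨c, h1, mem_desc.2 h2⟩
      · rintro (h1 | ⟨c, h1, h2⟩)
        · exact Or.inl h1.symm
        · exact Or.inr ⟨c, h1, mem_desc.1 h2⟩
    have hlt : ∀ c, E v c → (desc E c).card < n := by
      intro c hc
      rw [← hv]
      refine card_lt_card ⟨desc_subset hc, fun hcon => ?_⟩
      exact notMem_desc hE hc (hcon (self_mem_desc v))
    -- the children
    have hcases : (∀ c, ¬ E v c) ∨ (∃ c, ∀ d, E v d ↔ d = c) ∨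
        ∃ c d, c ≠ d ∧ ∀ e, E v e ↔ e = c ∨ e = d := by
      have h2 := hout v
      interval_cases hcard : {w | E v w}.ncard
      · left
        intro c hc
        rw [Set.ncard_eq_zero hfin] at hcard
        have : c ∈ {w | E v w} := hc
        rw [hcard] at this
        exact this
      · right; left
        obtain ⟨c, hc⟩ := Set.ncard_eq_one.1 hcard
        refine ⟨c, fun d => ?_⟩
        have : d ∈ {w | E v w} ↔ d ∈ ({c} : Set τ) := by rw [hc]
        simpa using this
      · right; right
        obtain ⟨c, d, hcd, hc⟩ := Set.ncard_eq_two.1 hcard
        refine ⟨c, d, hcd, fun e => ?_⟩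
        have : e ∈ {w | E v w} ↔ e ∈ ({c, d} : Set τ) := by rw [hc]
        simpa using this
    rcases hcases with hc0 | ⟨c, hc⟩ | ⟨c, d, hcd, hc⟩
    · -- a leaf
      have hD : desc E v = {v} := by
        ext x
        rw [hmem, mem_singleton]
        constructor
        · rintro (h1 | ⟨c, h1, -⟩)
          · exact h1
          · exact absurd h1 (hc0 c)
        · exact Or.inl
      refine ⟨.node .nil .nil, by simp, by rw [hD]; rfl, ?_, ?_⟩
      · refine ⟨fun _ => hc0, ?_⟩
        have : ch (.node .nil .nil) = 0 := by simp [ch]
        rw [this]
        exact Nat.zero_le _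
      · intro x S hS
        refine ⟨fun _ => x, rfl, ?_, ?_, ?_⟩
        · intro a _
          exact hS.mem (by simp)
        · intro a ha e he _
          rw [hD, mem_singleton] at ha he
          rw [ha, he]
        · intro a ha e _ hae
          rw [hD, mem_singleton] at ha
          subst ha
          exact absurd hae (hc0 e)
    · -- one child
      have hvc : E v c := (hc c).2 rfl
      have hD : desc E v = insert v (desc E c) := by
        ext x
        rw [hmem, mem_insert]
        constructor
        · rintro (h1 | ⟨e, h1, h2⟩)
          · exact Or.inl h1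
          · rw [(hc e).1 h1] at h2
            exact Or.inr h2
        · rintro (h1 | h1)
          · exact Or.inl h1
          · exact Or.inr ⟨c, hvc, h1⟩
      obtain ⟨T, hT1, hT2, hT3, hT4⟩ := ih _ (hlt c hvc) c rfl
      have hnm := notMem_desc hE hvc
      refine ⟨.node T .nil, by simp, ?_, ?_, ?_⟩
      · rw [hD, card_insert_of_notMem hnm, ← hT2]
        simp [BT.size]
      · refine ⟨fun h1 => absurd (BT.node.inj h1).1 hT1, ?_⟩
        have : ch (.node T .nil) = ch T := by simp [ch]
        rw [this]
        exact hT3.2.trans (card_le_card (inter_subset_inter (Subset.refl _) (desc_subset hvc)))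
      · rintro x S ⟨y, A, B, hy, hyA, hyB, hAB, hSe, hA, hB⟩
        subst hy
        obtain ⟨z, hz, hzA⟩ := hA.root hT1
        obtain ⟨f, hf1, hf2, hf3, hf4⟩ := hT4 z A hzA
        have hne : ∀ a ∈ desc E c, a ≠ v := by
          rintro a ha rfl
          exact hnm ha
        refine ⟨fun a => if a = v then y else f a, by simp, ?_, ?_, ?_⟩
        · intro a ha
          rw [hD, mem_insert] at ha
          rcases ha with rfl | ha
          · simp [hSe]
          · have := hf2 a ha
            simp only [hne a ha, if_false, hSe]
            grind
        · intro a ha e he hae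
          rw [hD, mem_insert] at ha he
          rcases ha with rfl | ha
          · rcases he with rfl | he
            · rfl
            · have := hf2 e he
              simp only [hne e he, if_false, if_true] at hae
              rw [← hae] at this
              exact absurd this hyA
          · rcases he with rfl | he
            · have := hf2 a ha
              simp only [hne a ha, if_false, if_true] at hae
              rw [hae] at this
              exact absurd this hyA
            · simp only [hne a ha, hne e he, if_false] at hae
              exact hf3 a ha e he hae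
        · intro a ha e he hae
          rw [hD, mem_insert] at ha he
          rcases ha with rfl | ha
          · have := (hc e).1 hae
            subst this
            simp only [hne e (self_mem_desc e), if_false, if_true, hf1]
            exact hz
          · rcases he with rfl | he
            · have h1 := rank_le hE (mem_desc.1 ha)
              have h2 := hE _ _ hae
              have h3 := hE _ _ hvc
              omega
            · simp only [hne a ha, hne e he, if_false]
              exact hf4 a ha e he hae
    · -- two children
      have hvc : E v c := (hc c).2 (Or.inl rfl)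
      have hvd : E v d := (hc d).2 (Or.inr rfl)
      have hD : desc E v = insert v (desc E c ∪ desc E d) := by
        ext x
        rw [hmem, mem_insert, mem_union]
        constructor
        · rintro (h1 | ⟨e, h1, h2⟩)
          · exact Or.inl h1
          · rcases (hc e).1 h1 with rfl | rfl
            · exact Or.inr (Or.inl h2)
            · exact Or.inr (Or.inr h2)
        · rintro (h1 | h1 | h1)
          · exact Or.inl h1
          · exact Or.inr ⟨c, hvc, h1⟩
          · exact Or.inr ⟨d, hvd, h1⟩
      obtain ⟨T, hT1, hT2, hT3, hT4⟩ := ih _ (hlt c hvc) c rfl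
      obtain ⟨T', hT1', hT2', hT3', hT4'⟩ := ih _ (hlt d hvd) d rfl
      have hnm := notMem_desc hE hvc
      have hnm' := notMem_desc hE hvd
      have hdis := desc_disjoint hE hin hvc hvd hcd
      refine ⟨.node T T', by simp, ?_, ?_, ?_⟩
      · rw [hD, card_insert_of_notMem (by simp [hnm, hnm']), card_union_of_disjoint hdis, ← hT2, ← hT2']
        simp [BT.size]
      · refine ⟨fun h1 => absurd (BT.node.inj h1).1 hT1, ?_⟩
        rw [ch]
        split_ifs with hlf
        · rw [Nat.one_le_iff_ne_zero, ← Nat.pos_iff_ne_zero, card_pos]
          exact ⟨v, mem_inter.2 ⟨hP v ⟨c, d, hcd, hc, hT3.1 hlf.1, hT3'.1 hlf.2⟩, self_mem_desc v⟩⟩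
        · refine (Nat.add_le_add hT3.2 hT3'.2).trans ?_
          rw [← card_union_of_disjoint (disjoint_of_subset_left inter_subset_right
            (disjoint_of_subset_right inter_subset_right hdis)), ← inter_union_distrib_left]
          exact card_le_card (inter_subset_inter (Subset.refl _)
            (union_subset (desc_subset hvc) (desc_subset hvd)))
      · rintro x S ⟨y, A, B, hy, hyA, hyB, hAB, hSe, hA, hB⟩
        subst hy
        obtain ⟨z, hz, hzA⟩ := hA.root hT1
        obtain ⟨z', hz', hzB⟩ := hB.root hT1'
        obtain ⟨f, hf1, hf2, hf3, hf4⟩ := hT4 z A hzA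
        obtain ⟨f', hf1', hf2', hf3', hf4'⟩ := hT4' z' B hzB
        have hne : ∀ a ∈ desc E c, a ≠ v := by
          rintro a ha rfl
          exact hnm ha
        have hne' : ∀ a ∈ desc E d, a ≠ v := by
          rintro a ha rfl
          exact hnm' ha
        have hnd : ∀ a ∈ desc E d, a ∉ desc E c := fun a ha ha' => disjoint_left.1 hdis ha' ha
        refine ⟨fun a => if a = v then y else if a ∈ desc E c then f a else f' a, by simp, ?_, ?_, ?_⟩
        · intro a ha
          rw [hD, mem_insert, mem_union] at ha
          rcases ha with rfl | ha | ha
          · simp [hSe]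
          · have := hf2 a ha
            simp only [hne a ha, ha, if_false, if_true, hSe]
            grind
          · have := hf2' a ha
            simp only [hne' a ha, hnd a ha, if_false, hSe]
            grind
        · intro a ha e he hae
          rw [hD, mem_insert, mem_union] at ha he
          rcases ha with rfl | ha | ha
          · rcases he with rfl | he | he
            · rfl
            · have := hf2 e he
              simp only [hne e he, he, if_false, if_true] at hae
              rw [← hae] at this
              exact absurd this hyA
            · have := hf2' e he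
              simp only [hne' e he, hnd e he, if_false, if_true] at hae
              rw [← hae] at this
              exact absurd this hyB
          · rcases he with rfl | he | he
            · have := hf2 a ha
              simp only [hne a ha, ha, if_false, if_true] at hae
              rw [hae] at this
              exact absurd this hyA
            · simp only [hne a ha, hne e he, ha, he, if_false, if_true] at hae
              exact hf3 a ha e he hae
            · simp only [hne a ha, hne' e he, ha, hnd e he, if_false, if_true] at hae
              have h1 := hf2 a ha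
              have h2 := hf2' e he
              rw [hae] at h1
              exact absurd h2 (disjoint_left.1 hAB h1)
          · rcases he with rfl | he | he
            · have := hf2' a ha
              simp only [hne' a ha, hnd a ha, if_false, if_true] at hae
              rw [hae] at this
              exact absurd this hyB
            · simp only [hne' a ha, hne e he, hnd a ha, he, if_false, if_true] at hae
              have h1 := hf2' a ha
              have h2 := hf2 e he
              rw [← hae] at h2
              exact absurd h1 (disjoint_left.1 hAB h2)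
            · simp only [hne' a ha, hne' e he, hnd a ha, hnd e he, if_false] at hae
              exact hf3' a ha e he hae
        · intro a ha e he hae
          rw [hD, mem_insert, mem_union] at ha he
          rcases ha with rfl | ha | ha
          · rcases (hc e).1 hae with rfl | rfl
            · simp only [hne e (self_mem_desc e), self_mem_desc e, if_false, if_true, hf1]
              exact hz
            · simp only [hne' e (self_mem_desc e), hnd e (self_mem_desc e), if_false, if_true, hf1']
              exact hz'
          · have he' : e ∈ desc E c := mem_desc.2 ((mem_desc.1 ha).tail hae)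
            simp only [hne a ha, hne e he', ha, he', if_false, if_true]
            exact hf4 a ha e he' hae
          · have he' : e ∈ desc E d := mem_desc.2 ((mem_desc.1 ha).tail hae)
            simp only [hne' a ha, hne' e he', hnd a ha, hnd e he', if_false]
            exact hf4' a ha e he' hae


theorem final_cherry {k n : ℕ} {R : Fin n → Fin n → Prop} (hT : Tour R) {E : Fin (k + 1) → Fin (k + 1) → Prop}
    (hanti : ∀ a b, E a b → ¬ E b a) (hG : (SimpleGraph.fromRel E).IsTree)
    (hin : ∀ a b c, E a c → E b c → a = b) (hout : ∀ v, {w | E v w}.ncard ≤ 2)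
    (hn : k + 1 + {v | {w | E v w}.ncard = 2 ∧ ∀ w, E v w → ∀ x, ¬ E w x}.ncard ≤ n) :
    ∃ f : Fin (k + 1) → Fin n, Function.Injective f ∧ ∀ a b, E a b → R (f a) (f b) := by
  classical
  set P : Set (Fin (k + 1)) := {v | {w | E v w}.ncard = 2 ∧ ∀ w, E v w → ∀ x, ¬ E w x} with hPdef
  obtain ⟨h, hE⟩ := GS78.exists_rank hanti hG.2
  obtain ⟨ρ, hρ⟩ := exists_root hin hE hG.1
  have hP : ∀ v, Cher E v → v ∈ P.toFinset := by
    rintro v ⟨c, d, hcd, h1, h2, h3⟩
    rw [Set.mem_toFinset]
    have e : {w | E v w} = {c, d} := by
      ext w
      simp [h1]
    refine ⟨?_, ?_⟩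
    · rw [e, Set.ncard_pair hcd]
    · intro w hw
      rcases (h1 w).1 hw with rfl | rfl
      · exact h2
      · exact h3
  obtain ⟨T, hT1, hT2, ⟨-, hT3⟩, hT4⟩ := exists_bt (R := R) hE hin hout hP _ ρ rfl
  have h1 : T.size = k + 1 := by rw [hT2, hρ, card_univ, Fintype.card_fin]
  have h2 : ch T ≤ P.ncard := by
    rw [Set.ncard_eq_toFinset_card']
    exact hT3.trans (card_le_card inter_subset_left)
  obtain ⟨S, hS⟩ := embed_ch hT hT1 (U := (univ : Finset (Fin n))) (by
    rw [card_univ, Fintype.card_fin]
    omega)
  obtain ⟨x, -, hx⟩ := hS.root hT1
  obtain ⟨f, -, -, hf3, hf4⟩ := hT4 x S hx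
  rw [hρ] at hf3 hf4
  exact ⟨f, fun a b hab => hf3 a (mem_univ _) b (mem_univ _) hab, fun a b hab => hf4 a (mem_univ _) b (mem_univ _) hab⟩

end AE95
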