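import Pool.Agent.AE95.Span

/-!
# Binary out-arborescences without cherries span every tournament of the same order: the induction
-/

namespace AE95

open Finset AE32

variable {V : Type*} [DecidableEq V] {R : V → V → Prop}

theorem Un.swap {l r : BT} {x : V} {X : Finset V} (h : Un R (.node l r) x X) : Un R (.node r l) x X :=
  Emb.swap h

theorem Cyc.lswap {M S₁ S₂ : BT} {A B : Finset V} {x y z : V} (h : Cyc R M (.node S₁ S₂) A B x y z) :
    Cyc R M (.node S₂ S₁) A B x y z :=
  ⟨h.xy, h.yz, h.zx, h.mx, h.my, h.mz, h.lx.swap, h.ly.swap, h.lz.swap⟩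

theorem No.lswap {M S₁ S₂ : BT} {W : V → Prop} {U : Finset V} (h : No R M (.node S₁ S₂) W U) :
    No R M (.node S₂ S₁) W U := by
  intro w hw A B h1 h2 h3 h4 h5 h6
  exact h w hw A B h1 h2.swap h3 h4 h5 h6

theorem cyc_false (hT : Tour R) {M S₁ S₂ : BT} (fM : Fl R M) (f₁ : S₁ ≠ .nil → Fl R S₁) (f₂ : S₂ ≠ .nil → Fl R S₂)
    (hne : ¬ (S₁ = .nil ∧ S₂ = .nil)) {l s p : V} {A B : Finset V} (hc : Cyc R M (.node S₁ S₂) A B l s p)
    (hd : Disjoint A B) (hno : No R M (.node S₁ S₂) (fun w => w = l ∨ w = s ∨ w = p)
      (insert l (insert s (insert p (A ∪ B))))) : False := by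
  obtain ⟨B₁, B₂, rfl, hB, -, -, h1, h2⟩ := bd_cases hc.lx
  rw [disjoint_union_right] at hd
  by_cases e1 : S₁ = .nil
  · have e2 : S₂ ≠ .nil := fun h => hne ⟨e1, h⟩
    subst e1
    have hB1 : B₁ = ∅ := h1
    subst hB1
    obtain ⟨c, B₂', hc', rfl, h3⟩ := un_cases e2 h2
    have hd2 := hd.2
    rw [disjoint_insert_right] at hd2
    have e : (∅ : Finset V) ∪ insert c B₂' = insert c (B₂' ∪ ∅) := by simp
    rw [e] at hc hno
    exact stage2 hT fM (f₂ e2) hc.lswap hc' h3 un_nil un_nil (by simp) (by simp) hd2.1 hd2.2 (by simp) hno.lswap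
  · obtain ⟨c, B₁', hc', rfl, h3⟩ := un_cases e1 h1
    have hd1 := hd.1
    rw [disjoint_insert_right] at hd1
    by_cases e2 : S₂ = .nil
    · subst e2
      have hB2 : B₂ = ∅ := h2
      subst hB2
      rw [insert_union] at hc hno
      exact stage2 hT fM (f₁ e1) hc hc' h3 un_nil un_nil (by simp) (by simp) hd1.1 hd1.2 (by simp) hno
    · obtain ⟨d, B₂', hd', rfl, h4⟩ := un_cases e2 h2
      have hd2 := hd.2
      rw [disjoint_insert_right] at hd2
      obtain ⟨e3, e4, e5, e6⟩ := dis_ins hB
      rcases hT.tot c d e3 with h5 | h5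
      · have e : insert c B₁' ∪ insert d B₂' = insert c (B₁' ∪ insert d B₂') := insert_union _ _ _
        rw [e] at hc hno
        refine stage2 hT fM (f₁ e1) hc hc' h3 (h4.un hd') (h4.un h5) (by simp [*]) ?_ hd1.1 hd1.2 ?_ hno
        · simp [disjoint_insert_right, *]
        · simp [disjoint_insert_right, *]
      · have e : insert c B₁' ∪ insert d B₂' = insert d (B₂' ∪ insert c B₁') := by
          rw [union_comm, insert_union]
        rw [e] at hc hno
        refine stage2 hT fM (f₂ e2) hc.lswap hd' h4 (h3.un hc') (h3.un h5) ?_ ?_ hd2.1 hd2.2 ?_ hno.lswap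
        · simp only [mem_insert, not_or]
          exact ⟨fun h => e3 h.symm, e5⟩
        · simp [disjoint_insert_right, *, e6.symm]
        · simp [disjoint_insert_right, *]

theorem st_two (hT : Tour R) {M S₁ S₂ : BT} (fM : Fl R M) (fL : Fl R (.node S₁ S₂)) (f₁ : S₁ ≠ .nil → Fl R S₁)
    (f₂ : S₂ ≠ .nil → Fl R S₂) (hne : ¬ (S₁ = .nil ∧ S₂ = .nil)) : St R M (.node S₁ S₂) := by
  intro z l q A B hz hl hd zB lA zl qA qB qz ql
  by_contra hcon
  have hno : No R M (.node S₁ S₂) (fun w => w = z ∨ w = l ∨ w = q) (insert z (insert l (insert q (A ∪ B)))) := by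
    have hzA := hz.1
    have hlB := hl.1
    intro w hw A' B' h1 h2 h3 h4 h5 h6
    have h7 := bd_mk h1 h2 h3 h4 h5
    have h8 : A' ∪ B' = (insert z (insert l (insert q (A ∪ B)))).erase w := by
      rw [← h6, erase_insert]
      simp [h3, h4]
    rw [h8] at h7
    apply hcon
    have key : ∀ x : V, ∀ X Y : Finset V, Bd R (.node M (.node S₁ S₂)) x X → X = Y →
        Bd R (.node M (.node S₁ S₂)) x Y := fun x X Y h e => e ▸ h
    rcases hw with rfl | rfl | rfl
    · left
      refine key _ _ _ h7 ?_
      ext x
      simp only [mem_erase, mem_insert, mem_union]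
      constructor
      · tauto
      · rintro (rfl | rfl | h | h)
        · exact ⟨qz, by tauto⟩
        · exact ⟨Ne.symm zl, by tauto⟩
        · exact ⟨fun h' => hzA (h' ▸ h), by tauto⟩
        · exact ⟨fun h' => zB (h' ▸ h), by tauto⟩
    · right; left
      refine key _ _ _ h7 ?_
      ext x
      simp only [mem_erase, mem_insert, mem_union]
      constructor
      · tauto
      · rintro (rfl | rfl | h | h)
        · exact ⟨ql, by tauto⟩
        · exact ⟨zl, by tauto⟩
        · exact ⟨fun h' => lA (h' ▸ h), by tauto⟩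
        · exact ⟨fun h' => hlB (h' ▸ h), by tauto⟩
    · right; right
      refine key _ _ _ h7 ?_
      ext x
      simp only [mem_erase, mem_insert, mem_union]
      constructor
      · tauto
      · rintro (rfl | rfl | h | h)
        · exact ⟨Ne.symm qz, by tauto⟩
        · exact ⟨Ne.symm ql, by tauto⟩
        · exact ⟨fun h' => qA (h' ▸ h), by tauto⟩
        · exact ⟨fun h' => qB (h' ▸ h), by tauto⟩
  rcases hT.tot z l zl with h | h
  · exact cyc_false hT fM f₁ f₂ hne (stage1 hT fM fL hz hl hd zB lA zl qA qB qz ql h hno) hd hno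
  · have hno' : No R M (.node S₁ S₂) (fun w => w = l ∨ w = z ∨ w = q)
        (insert l (insert z (insert q (A ∪ B)))) :=
      hno.mono (fun w hw => by tauto) (insert_comm _ _ _)
    refine cyc_false hT fM f₁ f₂ hne (Cyc.swap (stage1 hT fL fM hl hz hd.symm lA zB (Ne.symm zl) qB qA ql qz h
      (hno'.swap.mono (fun w hw => hw) ?_))) hd hno'
    rw [union_comm]

theorem Fl.swap {l r : BT} (h : Fl R (.node l r)) : Fl R (.node r l) := by
  intro x X q hx hq hqx
  rcases h x X q hx.swap hq hqx with h1 | ⟨h1, h2⟩
  · exact Or.inl h1.swap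
  · exact Or.inr ⟨h1, h2.swap⟩

/-- trees without cherries are flexible -/
theorem fl_all (hT : Tour R) (n : ℕ) : ∀ T : BT, T.size = n → CF T → T ≠ .nil → Fl R T := by
  induction n using Nat.strong_induction_on with
  | _ n ih =>
    intro T hn hC hne
    cases T with
    | nil => exact absurd rfl hne
    | node l r =>
      have hs : (BT.node l r).size = l.size + r.size + 1 := rfl
      have hl : l ≠ .nil → Fl R l := fun h => ih l.size (by omega) l rfl hC.1 h
      have hr : r ≠ .nil → Fl R r := fun h => ih r.size (by omega) r rfl hC.2.1 h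
      have key : ∀ M L : BT, M ≠ .nil → L ≠ .nil → L ≠ lf → CF M → CF L → M.size + L.size < n →
          Fl R (.node M L) := by
        intro M L h1 h2 h3 h4 h5 h6
        cases L with
        | nil => exact absurd rfl h2
        | node S₁ S₂ =>
          have hs' : (BT.node S₁ S₂).size = S₁.size + S₂.size + 1 := rfl
          refine fl_of_st hT h1 h2 (st_two hT (ih M.size (by omega) M rfl h4 h1)
            (ih (BT.node S₁ S₂).size (by omega) _ rfl h5 h2)
            (ih S₁.size (by omega) S₁ rfl h5.1) (ih S₂.size (by omega) S₂ rfl h5.2.1) ?_)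
          rintro ⟨rfl, rfl⟩
          exact h3 rfl
      by_cases e1 : l = .nil
      · subst e1
        by_cases e2 : r = .nil
        · subst e2
          exact fl_leaf hT
        · exact (fl_one hT e2 (hr e2)).swap
      · by_cases e2 : r = .nil
        · subst e2
          exact fl_one hT e1 (hl e1)
        · by_cases e3 : r = lf
          · have e4 : l ≠ lf := fun h => hC.2.2 ⟨h, e3⟩
            exact (key r l e2 e1 e4 hC.2.1 hC.1 (by omega)).swap
          · exact key l r e1 e2 e3 hC.1 hC.2.1 (by omega)

/-- the strong property for trees without cherries -/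
theorem st_all (hT : Tour R) {M L : BT} (hC : CF (.node M L)) (hM : M ≠ .nil) (hL : L ≠ .nil) :
    St R M L ∨ St R L M := by
  have h0 : ∀ T : BT, CF T → T ≠ .nil → Fl R T := fun T h1 h2 => fl_all hT T.size T rfl h1 h2
  have key : ∀ M L : BT, M ≠ .nil → L ≠ .nil → L ≠ lf → CF M → CF L → St R M L := by
    intro M L h1 h2 h3 h4 h5
    cases L with
    | nil => exact absurd rfl h2
    | node S₁ S₂ =>
      refine st_two hT (h0 M h4 h1) (h0 _ h5 h2) (h0 S₁ h5.1) (h0 S₂ h5.2.1) ?_
      rintro ⟨rfl, rfl⟩
      exact h3 rfl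
  by_cases e3 : L = lf
  · have e4 : M ≠ lf := fun h => hC.2.2 ⟨h, e3⟩
    exact Or.inr (key L M hL hM e4 hC.2.1 hC.1)
  · exact Or.inl (key M L hM hL e3 hC.1 hC.2.1)

/-- trees without cherries span every tournament of the same order -/
theorem span (hT : Tour R) (T : BT) : CF T → T ≠ .nil → ∀ S : Finset V, S.card = T.size →
    ∃ x X, S = insert x X ∧ Bd R T x X := by
  induction T with
  | nil => exact fun _ h => absurd rfl h
  | node l r ihl ihr =>
    intro hC _ S hS
    have hs : (BT.node l r).size = l.size + r.size + 1 := rfl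
    obtain ⟨q, hq⟩ : S.Nonempty := by
      rw [← card_pos]
      omega
    have hSq : S = insert q (S.erase q) := (insert_erase hq).symm
    have hcq : (S.erase q).card = l.size + r.size := by
      rw [card_erase_of_mem hq]
      omega
    have hone : ∀ M : BT, CF M → M ≠ .nil → (∀ S : Finset V, S.card = M.size →
        ∃ x X, S = insert x X ∧ Bd R M x X) → (S.erase q).card = M.size →
        ∃ x X, S = insert x X ∧ Bd R (.node M .nil) x X := by
      intro M h1 h2 h3 h4
      obtain ⟨z, Z, h5, h6⟩ := h3 _ h4
      have hqz : q ∉ insert z Z := by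
        rw [← h5]
        simp
      simp only [mem_insert, not_or] at hqz
      rw [h5] at hSq
      rcases st_one (fl_all hT M.size M rfl h1 h2) h6 hqz.2 hqz.1 with h7 | h7
      · exact ⟨z, _, by rw [hSq, insert_comm], h7⟩
      · exact ⟨q, _, hSq, h7⟩
    by_cases e1 : l = .nil
    · subst e1
      have hz : BT.nil.size = 0 := rfl
      by_cases e2 : r = .nil
      · subst e2
        refine ⟨q, ∅, ?_, ?_⟩
        · rw [hz, card_eq_zero] at hcq
          rw [hSq, hcq]
        · have := bd_mk (R := R) (x := q) (un_nil) (un_nil) (by simp) (by simp) (by simp)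
          simpa using this
      · obtain ⟨x, X, h1, h2⟩ := hone r hC.2.1 e2 (ihr hC.2.1 e2) (by omega)
        exact ⟨x, X, h1, h2.swap⟩
    · by_cases e2 : r = .nil
      · subst e2
        have hz : BT.nil.size = 0 := rfl
        exact hone l hC.1 e1 (ihl hC.1 e1) (by omega)
      · obtain ⟨A, hA, hAc⟩ := exists_subset_card_eq (s := S.erase q) (n := l.size) (by omega)
        have hBc : ((S.erase q) \ A).card = r.size := by
          rw [card_sdiff_of_subset hA]
          omega
        obtain ⟨z, A', hz1, hz2⟩ := ihl hC.1 e1 A hAc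
        obtain ⟨w, B', hw1, hw2⟩ := ihr hC.2.1 e2 _ hBc
        have hdis : Disjoint A ((S.erase q) \ A) := disjoint_sdiff
        have hun : S.erase q = A ∪ ((S.erase q) \ A) := (union_sdiff_of_subset hA).symm
        rw [hw1] at hun hdis
        rw [hz1] at hun hdis
        obtain ⟨d1, d2, d3, d4⟩ := dis_ins hdis
        have hqn : q ∉ insert z A' ∪ insert w B' := by
          rw [← hun]
          simp
        simp only [mem_insert, mem_union, not_or] at hqn
        obtain ⟨⟨q1, q2⟩, q3, q4⟩ := hqn
        rw [hun] at hSq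
        rcases st_all hT hC e1 e2 with hst | hst
        · rcases hst z w q A' B' hz2 hw2 d4 d2 d3 d1 q2 q4 q1 q3 with h7 | h7 | h7
          · refine ⟨z, _, ?_, h7⟩
            rw [hSq]
            ext; simp only [mem_insert, mem_union]; tauto
          · refine ⟨w, _, ?_, h7⟩
            rw [hSq]
            ext; simp only [mem_insert, mem_union]; tauto
          · refine ⟨q, _, ?_, h7⟩
            rw [hSq]
            ext; simp only [mem_insert, mem_union]; tauto
        · rcases hst w z q B' A' hw2 hz2 d4.symm d3 d2 (Ne.symm d1) q4 q2 q3 q1 with h7 | h7 | h7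
          · refine ⟨w, _, ?_, h7.swap⟩
            rw [hSq]
            ext; simp only [mem_insert, mem_union]; tauto
          · refine ⟨z, _, ?_, h7.swap⟩
            rw [hSq]
            ext; simp only [mem_insert, mem_union]; tauto
          · refine ⟨q, _, ?_, h7.swap⟩
            rw [hSq]
            ext; simp only [mem_insert, mem_union]; tauto

end AE95
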