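import Pool.Agent.AE32.Defs

/-!
# Binary out-arborescences without cherries span every tournament of the same order
-/

namespace AE95

open Finset AE32

variable {V : Type*} [DecidableEq V] {R : V → V → Prop}

/-- the one-vertex tree -/
abbrev lf : BT := .node .nil .nil

/-- no node of the tree has two children which are both leaves -/
def CF : BT → Prop
  | .nil => True
  | .node l r => CF l ∧ CF r ∧ ¬ (l = lf ∧ r = lf)

/-- `x` is the root of a copy of `T` with vertex set `X ∪ {x}`, `x ∉ X` -/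
def Bd (R : V → V → Prop) (T : BT) (x : V) (X : Finset V) : Prop := x ∉ X ∧ Rt R T x (insert x X)

/-- `x` has an out-neighbour which is the root of a copy of `T` with vertex set `X`. -/
def Un (R : V → V → Prop) (T : BT) (x : V) (X : Finset V) : Prop := Emb R T (R x) X

/-- the flexibility property with one extra vertex, all vertices used -/
def Fl (R : V → V → Prop) (T : BT) : Prop := ∀ x X r, Bd R T x X → r ∉ X → r ≠ x →
  Un R T x (insert r X) ∨ (R r x ∧ Bd R T r X)

theorem Bd.un {T : BT} {x y : V} {X : Finset V} (h : Bd R T x X) (hy : R y x) : Un R T y (insert x X) :=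
  h.2.under hy

theorem un_nil {x : V} : Un R .nil x ∅ := by
  show (∅ : Finset V) = ∅
  rfl

theorem bd_mk {l r : BT} {x : V} {A B : Finset V} (hl : Un R l x A) (hr : Un R r x B) (hA : x ∉ A) (hB : x ∉ B)
    (hAB : Disjoint A B) : Bd R (.node l r) x (A ∪ B) :=
  ⟨by simp [hA, hB], rt_mk hl hr hA hB hAB⟩

theorem bd_cases {l r : BT} {x : V} {X : Finset V} (h : Bd R (.node l r) x X) :
    ∃ A B, X = A ∪ B ∧ Disjoint A B ∧ x ∉ A ∧ x ∉ B ∧ Un R l x A ∧ Un R r x B := by
  obtain ⟨hx, y, A, B, rfl, h1, h2, h3, h4, h5, h6⟩ := h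
  refine ⟨A, B, ?_, h3, h1, h2, h5, h6⟩
  have := congrArg (fun s => s.erase y) h4
  simpa [erase_insert, hx, h1, h2] using this

theorem un_cases {T : BT} (hT : T ≠ .nil) {x : V} {X : Finset V} (h : Un R T x X) :
    ∃ y Y, R x y ∧ X = insert y Y ∧ Bd R T y Y := by
  obtain ⟨y, h1, h2⟩ := Emb.root h hT
  have hy := h2.mem hT
  refine ⟨y, X.erase y, h1, (insert_erase hy).symm, by simp, ?_⟩
  rwa [insert_erase hy]

theorem Bd.swap {l r : BT} {x : V} {X : Finset V} (h : Bd R (.node l r) x X) : Bd R (.node r l) x X :=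
  ⟨h.1, h.2.swap⟩

theorem dis_ins {z l : V} {A B : Finset V} (h : Disjoint (insert z A) (insert l B)) :
    z ≠ l ∧ z ∉ B ∧ l ∉ A ∧ Disjoint A B := by
  rw [disjoint_insert_left, disjoint_insert_right] at h
  obtain ⟨h1, h2, h3⟩ := h
  simp only [mem_insert, not_or] at h1
  exact ⟨h1.1, h1.2, h2, h3⟩

/-- a leaf is flexible -/
theorem fl_leaf (hT : Tour R) : Fl R lf := by
  intro x X r h hr hrx
  obtain ⟨A, B, rfl, -, -, -, h1, h2⟩ := bd_cases h
  have hA : A = ∅ := h1
  have hB : B = ∅ := h2
  subst hA hB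
  have hb : ∀ y : V, Bd R lf y (∅ ∪ ∅) := fun y =>
    bd_mk un_nil un_nil (by simp) (by simp) (by simp)
  rcases hT.tot x r (Ne.symm hrx) with h | h
  · left
    exact (hb r).un h
  · right
    exact ⟨h, hb r⟩

/-- the strong property of one node: given the copies of the subtrees and one extra vertex, one of the three vertices
is the root of a spanning copy -/
def St (R : V → V → Prop) (M L : BT) : Prop := ∀ z l q A B, Bd R M z A → Bd R L l B → Disjoint A B →
  z ∉ B → l ∉ A → z ≠ l → q ∉ A → q ∉ B → q ≠ z → q ≠ l →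
  Bd R (.node M L) z (insert q (insert l (A ∪ B))) ∨ Bd R (.node M L) l (insert q (insert z (A ∪ B))) ∨
    Bd R (.node M L) q (insert z (insert l (A ∪ B)))

theorem fl_of_st (hT : Tour R) {M L : BT} (hM : M ≠ .nil) (hL : L ≠ .nil) (h : St R M L) : Fl R (.node M L) := by
  intro x X r hx hr hrx
  obtain ⟨A, B, rfl, hd, hxA, hxB, h1, h2⟩ := bd_cases hx
  obtain ⟨z, A', hz, rfl, hzA⟩ := un_cases hM h1
  obtain ⟨l, B', hl, rfl, hlB⟩ := un_cases hL h2
  have hz' := hzA.1
  have hl' := hlB.1
  obtain ⟨e1, e2, e3, e4⟩ := dis_ins hd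
  simp only [mem_union, mem_insert, not_or] at hr
  obtain ⟨⟨r1, r2⟩, r3, r4⟩ := hr
  have key := h z l r A' B' hzA hlB e4 e2 e3 e1 r2 r4 r1 r3
  rcases key with h3 | h3 | h3
  · left
    have := h3.un hz
    have e : insert z (insert r (insert l (A' ∪ B'))) = insert r (insert z A' ∪ insert l B') := by
      ext; simp only [mem_insert, mem_union]; tauto
    rwa [e] at this
  · left
    have := h3.un hl
    have e : insert l (insert r (insert z (A' ∪ B'))) = insert r (insert z A' ∪ insert l B') := by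
      ext; simp only [mem_insert, mem_union]; tauto
    rwa [e] at this
  · have e : insert z (insert l (A' ∪ B')) = insert z A' ∪ insert l B' := by
      ext; simp only [mem_insert, mem_union]; tauto
    rw [e] at h3
    rcases hT.tot x r (Ne.symm hrx) with h4 | h4
    · left
      exact h3.un h4
    · right
      exact ⟨h4, h3⟩

/-- one child -/
theorem st_one {M : BT} (h : Fl R M) {z q : V} {A : Finset V} (hz : Bd R M z A) (hq : q ∉ A)
    (hqz : q ≠ z) : Bd R (.node M .nil) z (insert q A) ∨ Bd R (.node M .nil) q (insert z A) := by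
  rcases h z A q hz hq hqz with h1 | ⟨h1, h2⟩
  · left
    have := bd_mk h1 (un_nil (R := R)) (by have := hz.1; grind) (by simp) (by simp)
    simpa using this
  · right
    have := bd_mk (hz.un h1) (un_nil (R := R)) (by grind) (by simp) (by simp)
    simpa using this

theorem fl_one (hT : Tour R) {M : BT} (hM : M ≠ .nil) (h : Fl R M) : Fl R (.node M .nil) := by
  intro x X r hx hr hrx
  obtain ⟨A, B, rfl, hd, hxA, hxB, h1, h2⟩ := bd_cases hx
  obtain ⟨z, A', hz, rfl, hzA⟩ := un_cases hM h1
  have hB : B = ∅ := h2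
  subst hB
  rw [union_empty] at hr ⊢
  rcases st_one h hzA (q := r) (by grind) (by grind) with h3 | h3
  · left
    have := h3.un hz
    rwa [insert_comm] at this
  · rcases hT.tot x r (Ne.symm hrx) with h4 | h4
    · left
      exact h3.un h4
    · right
      exact ⟨h4, h3⟩

/-- no vertex of `W` is the root of a copy of the tree with the branches `M`, `L` and vertex set `U` -/
def No (R : V → V → Prop) (M L : BT) (W : V → Prop) (U : Finset V) : Prop := ∀ w, W w → ∀ A B,
  Un R M w A → Un R L w B → w ∉ A → w ∉ B → Disjoint A B → insert w (A ∪ B) = U → False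

theorem No.swap {M L : BT} {W : V → Prop} {U : Finset V} (h : No R M L W U) : No R L M W U := by
  intro w hw A B h1 h2 h3 h4 h5 h6
  exact h w hw B A h2 h1 h4 h3 h5.symm (by rwa [union_comm])

theorem No.mono {M L : BT} {W W' : V → Prop} {U U' : Finset V} (h : No R M L W U) (hW : ∀ w, W' w → W w)
    (hU : U' = U) : No R M L W' U' := by
  intro w hw A B h1 h2 h3 h4 h5 h6
  exact h w (hW w hw) A B h1 h2 h3 h4 h5 (by rw [h6, hU])

/-- three vertices form a cyclic triangle and each of them is the root of both branches on fixed sets -/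
structure Cyc (R : V → V → Prop) (M L : BT) (A B : Finset V) (x y z : V) : Prop where
  xy : R x y
  yz : R y z
  zx : R z x
  mx : Bd R M x A
  my : Bd R M y A
  mz : Bd R M z A
  lx : Bd R L x B
  ly : Bd R L y B
  lz : Bd R L z B

theorem Cyc.swap {M L : BT} {A B : Finset V} {x y z : V} (h : Cyc R M L A B x y z) : Cyc R L M B A x y z :=
  ⟨h.xy, h.yz, h.zx, h.lx, h.ly, h.lz, h.mx, h.my, h.mz⟩

theorem stage1 (hT : Tour R) {M L : BT} (fM : Fl R M) (fL : Fl R L) {x y q : V} {A B : Finset V}
    (hx : Bd R M x A) (hy : Bd R L y B) (hd : Disjoint A B) (xB : x ∉ B) (yA : y ∉ A) (xy : x ≠ y) (qA : q ∉ A)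
    (qB : q ∉ B) (qx : q ≠ x) (qy : q ≠ y) (hxy : R x y)
    (hno : No R M L (fun w => w = x ∨ w = y ∨ w = q) (insert x (insert y (insert q (A ∪ B))))) :
    Cyc R M L A B x y q := by
  have xA := hx.1
  have yB := hy.1
  have xy' := xy.symm
  have qx' := qx.symm
  have qy' := qy.symm
  -- step 1
  obtain ⟨h1, h2⟩ : R q x ∧ Bd R M q A := by
    refine (fM x A q hx qA qx).resolve_left fun h => ?_
    refine hno x (Or.inl rfl) _ _ h (hy.un hxy) (by simp [*]) (by simp [*]) ?_ ?_
    · simp [disjoint_insert_left, disjoint_insert_right, *]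
    · ext; simp only [mem_insert, mem_union]; tauto
  -- step 2
  have h3 : R y q := by
    refine (hT.tot y q qy').resolve_right fun h => ?_
    refine hno q (Or.inr (Or.inr rfl)) _ _ (hx.un h1) (hy.un h) (by simp [*]) (by simp [*]) ?_ ?_
    · simp [disjoint_insert_left, disjoint_insert_right, *]
    · ext; simp only [mem_insert, mem_union]; tauto
  -- step 3
  obtain ⟨-, h4⟩ : R x y ∧ Bd R L x B := by
    refine (fL y B x hy xB xy).resolve_left fun h => ?_
    refine hno y (Or.inr (Or.inl rfl)) _ _ (h2.un h3) h (by simp [*])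
      (by simp [*]) ?_ ?_
    · simp [disjoint_insert_left, disjoint_insert_right, *]
    · ext; simp only [mem_insert, mem_union]; tauto
  -- step 4
  obtain ⟨-, h5⟩ : R y q ∧ Bd R M y A := by
    refine (fM q A y h2 yA qy').resolve_left fun h => ?_
    refine hno q (Or.inr (Or.inr rfl)) _ _ h (h4.un h1) (by simp [*]) (by simp [*]) ?_ ?_
    · simp [disjoint_insert_left, disjoint_insert_right, *]
    · ext; simp only [mem_insert, mem_union]; tauto
  -- step 5
  obtain ⟨-, h6⟩ : R q x ∧ Bd R L q B := by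
    refine (fL x B q h4 qB qx).resolve_left fun h => ?_
    refine hno x (Or.inl rfl) _ _ (h5.un hxy) h (by simp [*]) (by simp [*]) ?_ ?_
    · simp [disjoint_insert_left, disjoint_insert_right, *]
    · ext; simp only [mem_insert, mem_union]; tauto
  exact ⟨hxy, h3, h1, hx, h5, h2, h4, hy, h6⟩

theorem stage2 (hT : Tour R) {M S₁ S₂ : BT} (fM : Fl R M) (f₁ : Fl R S₁) {l s p c : V} {A B₁ B₂ : Finset V}
    (hc : Cyc R M (.node S₁ S₂) A (insert c (B₁ ∪ B₂)) l s p) (lc : R l c) (h₁ : Bd R S₁ c B₁) (h₂ : Un R S₂ l B₂)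
    (h₃ : Un R S₂ c B₂) (cB : c ∉ B₂) (hd : Disjoint B₁ B₂) (cA : c ∉ A) (hA₁ : Disjoint A B₁)
    (hA₂ : Disjoint A B₂)
    (hno : No R M (.node S₁ S₂) (fun w => w = l ∨ w = s ∨ w = p)
      (insert l (insert s (insert p (A ∪ insert c (B₁ ∪ B₂)))))) : False := by
  have ls : l ≠ s := fun h => hT.irr s (by have := hc.xy; rwa [h] at this)
  have sp : s ≠ p := fun h => hT.irr p (by have := hc.yz; rwa [h] at this)
  have pl : p ≠ l := fun h => hT.irr l (by have := hc.zx; rwa [h] at this)
  have lA := hc.mx.1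
  have sA := hc.my.1
  have pA := hc.mz.1
  have hl := hc.lx.1
  have hs := hc.ly.1
  have hp := hc.lz.1
  simp only [mem_insert, mem_union, not_or] at hl hs hp
  obtain ⟨lc', lB1, lB2⟩ := hl
  obtain ⟨sc, sB1, sB2⟩ := hs
  obtain ⟨pc, pB1, pB2⟩ := hp
  have cB1 := h₁.1
  have ls' := ls.symm
  have sp' := sp.symm
  have pl' := pl.symm
  have cl : ¬ c = l := fun h => lc' h.symm
  have cs : ¬ c = s := fun h => sc h.symm
  have cp : ¬ c = p := fun h => pc h.symm
  -- step a
  obtain ⟨a1, a2⟩ : R p c ∧ Bd R S₁ p B₁ := by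
    refine (f₁ c B₁ p h₁ pB1 pc).resolve_left fun h => ?_
    have h4 := bd_mk h h₃ (by simp [*]) cB (by simp [disjoint_insert_left, *])
    refine hno l (Or.inl rfl) _ _ (hc.my.un hc.xy) (h4.un lc) (by simp [*]) (by simp [*]) ?_ ?_
    · simp [disjoint_insert_left, disjoint_insert_right, disjoint_union_right, *]
    · ext; simp only [mem_insert, mem_union]; tauto
  -- step b
  obtain ⟨b1, b2⟩ : R s c ∧ Bd R S₁ s B₁ := by
    refine (f₁ c B₁ s h₁ sB1 sc).resolve_left fun h => ?_
    have h4 := bd_mk h h₃ (by simp [*]) cB (by simp [disjoint_insert_left, *])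
    refine hno p (Or.inr (Or.inr rfl)) _ _ (hc.mx.un hc.zx) (h4.un a1) (by simp [*])
      (by simp [*]) ?_ ?_
    · simp [disjoint_insert_left, disjoint_insert_right, disjoint_union_right, *]
    · ext; simp only [mem_insert, mem_union]; tauto
  -- step c
  obtain ⟨c1, -⟩ : R c p ∧ Bd R M c A := by
    refine (fM p A c hc.mz cA cp).resolve_left fun h => ?_
    have h4 := bd_mk (b2.un hc.xy) h₂ (by simp [*]) lB2 (by simp [disjoint_insert_left, *])
    refine hno p (Or.inr (Or.inr rfl)) _ _ h (h4.un hc.zx) (by simp [*]) (by simp [*]) ?_ ?_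
    · simp [disjoint_insert_left, disjoint_insert_right, disjoint_union_right, *]
    · ext; simp only [mem_insert, mem_union]; tauto
  exact hT.asym _ _ a1 c1

end AE95
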